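import Pool.Agent.Q223.SQ.D

/-!
# MP_7519fb_mp: the operational squeezing measure `G` is continuous on all covariance matrices
-/

namespace Pool.Agent.Results.MP_7519fb_mp.ContinuousEverywhere

open Matrix Topology Filter
open scoped ComplexOrder

/-- `σ = ⊕ [[0, 1], [-1, 0]]` (`n` blocks). The index `(0, i)` stands for `Q_i` and `(1, i)` for
`P_i`. -/
def sigma (n : ℕ) : Matrix (Fin 2 × Fin n) (Fin 2 × Fin n) ℝ :=
  Matrix.blockDiagonal fun _ => !![0, 1; -1, 0]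

/-- `S` is symplectic: `Sᵀ σ S = σ`. -/
def IsSymplectic (n : ℕ) (S : Matrix (Fin 2 × Fin n) (Fin 2 × Fin n) ℝ) : Prop :=
  Sᵀ * sigma n * S = sigma n

/-- The set `C_n` of covariance matrices: the real symmetric `γ` such that the Hermitian matrix
`γ - iσ` is positive semidefinite. -/
def Cov (n : ℕ) : Set (Matrix (Fin 2 × Fin n) (Fin 2 × Fin n) ℝ) :=
  {γ | γᵀ = γ ∧
    (γ.map (fun x : ℝ => (x : ℂ)) - Complex.I • (sigma n).map (fun x : ℝ => (x : ℂ))).PosSemidef}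

/-- `∑_{i=1}^n log s_i(S)`, where `s_1 ≥ s_2 ≥ …` are the singular values of `S` (Mathlib's
`LinearMap.singularValues` is indexed from `0`). -/
noncomputable def cost (n : ℕ) (S : Matrix (Fin 2 × Fin n) (Fin 2 × Fin n) ℝ) : ℝ :=
  ∑ i ∈ Finset.range n, Real.log ((Matrix.toEuclideanLin S).singularValues i)

/-- `G(γ)`, the infimum of the cost of `S` over all symplectic `S` with `γ ≥ Sᵀ S`. -/
noncomputable def G (n : ℕ) (γ : Matrix (Fin 2 × Fin n) (Fin 2 × Fin n) ℝ) : ℝ :=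
  sInf {x : ℝ | ∃ S, IsSymplectic n S ∧ (γ - Sᵀ * S).PosSemidef ∧ x = cost n S}

lemma sig (n : ℕ) : Q223.SQ.Sig (sigma n) where
  anti := by
    unfold sigma
    rw [Matrix.blockDiagonal_transpose, ← Matrix.blockDiagonal_neg]
    congr 1
    funext k
    ext i j
    fin_cases i <;> fin_cases j <;> simp
  orth := by
    unfold sigma
    rw [Matrix.blockDiagonal_transpose, ← Matrix.blockDiagonal_mul, ← Matrix.blockDiagonal_one]
    congr 1
    funext k
    ext i j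
    fin_cases i <;> fin_cases j <;> simp [Matrix.mul_apply, Fin.sum_univ_two]

lemma U_of_posSemidef {ι : Type*} [Fintype ι] [DecidableEq ι] {σ γ : Matrix ι ι ℝ}
    (h : (γ.map (fun x : ℝ => (x : ℂ)) -
      Complex.I • σ.map (fun x : ℝ => (x : ℂ))).PosSemidef) : Q223.SQ.U σ γ := by
  intro x y
  have h1 := h.dotProduct_mulVec_nonneg (fun i => (x i : ℂ) + (y i : ℂ) * Complex.I)
  have h2 := (Complex.le_def.mp h1).1
  refine h2.trans (le_of_eq ?_)
  simp only [Q223.SQ.q, dotProduct, Matrix.mulVec, Finset.mul_sum, Complex.re_sum,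
    ← Finset.sum_add_distrib, ← Finset.sum_sub_distrib]
  refine Finset.sum_congr rfl fun i _ => Finset.sum_congr rfl fun j _ => ?_
  simp [Matrix.map_apply]
  ring

lemma feas_iff {n : ℕ} {γ S : Matrix (Fin 2 × Fin n) (Fin 2 × Fin n) ℝ} (hs : γᵀ = γ) :
    S ∈ Q223.SQ.feas (sigma n) γ ↔ IsSymplectic n S ∧ (γ - Sᵀ * S).PosSemidef := by
  constructor
  · rintro ⟨h1, h2⟩
    refine ⟨h1, Q223.SQ.posSemidef_of ?_ fun x => ?_⟩
    · rw [Matrix.transpose_sub, hs, Q223.SQ.gram_symm]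
    · rw [Q223.SQ.q_sub]
      linarith [h2 x]
  · rintro ⟨h1, h2⟩
    refine ⟨h1, fun x => ?_⟩
    have := h2.dotProduct_mulVec_nonneg x
    have h3 : Q223.SQ.q (γ - Sᵀ * S) x = star x ⬝ᵥ (γ - Sᵀ * S) *ᵥ x := by
      simp [Q223.SQ.q]
    rw [← h3, Q223.SQ.q_sub] at this
    linarith

lemma cost_eq (n : ℕ) (S : Matrix (Fin 2 × Fin n) (Fin 2 × Fin n) ℝ) :
    cost n S = Q223.SQ.logSing n S := rfl

lemma G_eq {n : ℕ} {γ : Matrix (Fin 2 × Fin n) (Fin 2 × Fin n) ℝ} (hs : γᵀ = γ)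
    {S : Matrix (Fin 2 × Fin n) (Fin 2 × Fin n) ℝ} (hS : S ∈ Q223.SQ.feas (sigma n) γ)
    (hmin : ∀ S' ∈ Q223.SQ.feas (sigma n) γ, Q223.SQ.logSing n S ≤ Q223.SQ.logSing n S') :
    G n γ = Q223.SQ.logSing n S := by
  have h : IsLeast {x : ℝ | ∃ S, IsSymplectic n S ∧ (γ - Sᵀ * S).PosSemidef ∧ x = cost n S}
      (Q223.SQ.logSing n S) := by
    constructor
    · have := (feas_iff hs).mp hS
      exact ⟨S, this.1, this.2, rfl⟩
    · rintro x ⟨S', h1, h2, rfl⟩
      exact hmin S' ((feas_iff hs).mpr ⟨h1, h2⟩)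
  exact h.csInf_eq

/-- **Positive answer to Q1.** For every `n` the function `G` is continuous on the whole set `C_n`
of covariance matrices (boundary included), and the infimum that defines `G` is attained. -/
theorem result (n : ℕ) :
    ContinuousOn (G n) (Cov n) ∧
    ∀ γ ∈ Cov n, ∃ S, IsSymplectic n S ∧ (γ - Sᵀ * S).PosSemidef ∧ G n γ = cost n S ∧
      ∀ S', IsSymplectic n S' → (γ - S'ᵀ * S').PosSemidef → cost n S ≤ cost n S' := by
  have hm : n ≤ Fintype.card (Fin 2 × Fin n) := by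
    simp
    omega
  refine ⟨?_, ?_⟩
  · intro γ hγ
    refine tendsto_of_subseq_tendsto fun ns hns => ?_
    obtain ⟨h1, h2⟩ := tendsto_nhdsWithin_iff.mp hns
    obtain ⟨N, hN⟩ := eventually_atTop.mp h2
    have hshift : Tendsto (fun k => ns (N + k)) atTop (𝓝 γ) :=
      h1.comp (tendsto_atTop_mono (fun k => Nat.le_add_left k N) tendsto_id)
    have hmem : ∀ k, ns (N + k) ∈ Cov n := fun k => hN _ (Nat.le_add_right _ _)
    obtain ⟨φ, hφ⟩ := Q223.SQ.seq_main (sig n) hm (g := fun k => ns (N + k)) (γ := γ)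
      (fun k => ⟨(hmem k).1, U_of_posSemidef (hmem k).2⟩) ⟨hγ.1, U_of_posSemidef hγ.2⟩ hshift
      (G := G n) (fun γ' hs _ S hS hmin => G_eq hs hS hmin)
    exact ⟨fun k => N + φ k, hφ⟩
  · intro γ hγ
    obtain ⟨S, hS, hmin⟩ := Q223.SQ.exists_opt (sig n) hm hγ.1 (U_of_posSemidef hγ.2)
    have h1 := (feas_iff hγ.1).mp hS
    exact ⟨S, h1.1, h1.2, G_eq hγ.1 hS hmin,
      fun S' h2 h3 => hmin S' ((feas_iff hγ.1).mpr ⟨h2, h3⟩)⟩

end Pool.Agent.Results.MP_7519fb_mp.ContinuousEverywhere
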